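import Pool.Agent.U979.SC.Main

/-!
# André's supercharacter theory is the coarsest one containing all single-box characters

Let `F` be a finite field, `U = U_n(F)` the group of the upper unitriangular matrices and `𝔫` the space of the
strictly upper triangular matrices. The definitions (`Pool/Agent/U979/SC/Defs.lean`):

* `IsSCT X K`: `(X, K)` is a supercharacter theory in the sense of Diaconis and Isaacs;
* `andreK n F`: André's superclasses `{g | g - 1 ∈ U (x - 1) U}`;
* `orbSum th l`: the function `g ↦ ∑_{m ∈ U l U} θ (m (g - 1))` of the two-sided orbit of `l ∈ 𝔫*`;
* `andreX n F th`: the sets of the irreducible constituents of these functions;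
* `single th i j a`: the single-box supercharacter at the position `(i, j)` with label `a`, that is,
  `orbSum th l` divided by `q^(j-i-1)`, where `l y = a y_{ij}`.

Proof of the last part (the other parts are the known theorem of André, Yan, Diaconis and Isaacs). In every
supercharacter theory which contains the single-box characters these are constant on the superclasses. So
it is enough to show that two elements `g`, `h` of `U` at which all single-box characters agree lie in the same
superclass of André. Let `D ∈ U (g - 1) U` and `E ∈ U (h - 1) U` have at most one nonzero entry in each row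
and column. By induction on `j - i`, `D_{ij} = E_{ij}`: the values at `1 + D` and `1 + E` of the single-box
function at `(i, j)` are `θ(a D_{ij}) S` and `θ(a E_{ij}) S` with the same sum `S`, which involves only
entries at positions `(k, l)` with `l - k < j - i`. If there is `k` with `i < k < j` and `D_{kj} = E_{kj} ≠ 0` or
`D_{ik} = E_{ik} ≠ 0`, then `D_{ij} = 0 = E_{ij}`. Otherwise `S` is a positive number.
-/

set_option autoImplicit false

open Pool.Agent.U979.SC

namespace Pool.Agent.Results.MP_1f99fc_al.AndreCoarsest

/-- For every `n`, every finite field `F` and every nontrivial additive character `θ` of `F`: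
(1) André's pair of partitions is a supercharacter theory of `U_n(F)`; (2) its supercharacters `σ_A` are the
orbit sums; (3) all single-box supercharacters are irreducible characters contained in it; (4) every
supercharacter theory `(X, K)` of `U_n(F)` which contains all single-box characters as irreducible
characters is finer: every block of `K` lies in a superclass of André. Hence André's theory is the
coarsest supercharacter theory that contains all single-box characters. -/
theorem result (n : ℕ) (F : Type) [Field F] [Finite F] (th : AddChar F ℂ) (hth : ∃ x, th x ≠ 1) :
    IsSCT (andreX n F th) (andreK n F) ∧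
    (∀ l : N n F →ₗ[F] F, sigma {psi | IsIrrChar psi ∧ ∑ᶠ g : U n F, orbSum th l g * psi g⁻¹ ≠ 0} =
      orbSum th l) ∧
    (∀ i j : Fin n, i < j → ∀ a : F, a ≠ 0 →
      IsIrrChar (single th i j a) ∧ {single th i j a} ∈ andreX n F th) ∧
    ∀ (X : Set (Set (U n F → ℂ))) (K : Set (Set (U n F))), IsSCT X K →
      (∀ i j : Fin n, i < j → ∀ a : F, a ≠ 0 → {single th i j a} ∈ X) →
      ∀ C ∈ K, ∃ C' ∈ andreK n F, C ⊆ C' := by
  have := Fintype.ofFinite (U n F)
  refine ⟨andre_sct hth, fun l => sigma_block hth, fun i j hij a ha => ?_, fun X K hXK hs =>
    coarsest hth hXK hs⟩
  obtain ⟨h1, h2⟩ := single_irr (th := th) hth i j hij ha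
  exact ⟨h1, lam i j a, h2.symm⟩

end Pool.Agent.Results.MP_1f99fc_al.AndreCoarsest
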